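import Pool.Agent.R907.Cub.DiscCrit

/-!
# MP_ffd2c1_ag: the discriminant of the lattice of Hodge classes and associated K3 surfaces

Let `X` be a smooth cubic fourfold and `A(X)` the group of Hodge classes in `H^4(X, ℤ)`, `ρ` its rank and
`disc A(X)` its discriminant. If `ρ = 2`, then `X` lies in only one Hassett divisor `𝒞_d`, `d = disc A(X)`,
and it has an associated K3 surface if and only if `d > 6` is not divisible by `4`, by `9` or by an odd
prime number `p ≡ 2 mod 3`. For larger `ρ` there is the following sufficient condition.

**Theorem.** Suppose that `ρ ≥ 3`, and that `disc A(X)` is not divisible by `p ^ (ρ - 1)` for `p = 2`,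
for `p = 3` and for all prime numbers `p ≡ 2 mod 3`. Then `X` has an associated K3 surface; `X` lies
even in `𝒞_d` for infinitely many admissible `d`.

For example, this is the case if `ρ ≥ 3` and `disc A(X)` is square-free, or `ρ ≥ 4` and `disc A(X)` is
cube-free. So by the conjecture these cubic fourfolds are rational, and the lattices `A(X)` of rank
`ρ ≥ 3` of the irrational ones have discriminants which are divisible by a large power of a prime
number.

The known facts on cubic fourfolds which are used are collected in `H4.IsCohomology` (starting files).
Nothing else is assumed.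

Idea of the proof: by `MP_6fa476_ag.LocalGlobalPrinciple` one may consider one prime number `p` at a
time. Let `d(v) = 3 v.v - (h.v) ^ 2`. If `p ≠ 3` and all `d(v)` are divisible by `p` (by `4` for `p = 2`),
then `3 v.w - (h.v) (h.w)` is divisible by `p` for all `v`, `w`, and so the matrix of the intersection form
has rank at most one modulo `p`. If `p = 3`, all `d(v)` are divisible by `3` and none is `6` modulo `18`,
then `v.w - (h.v) (h.w) / 3` is an integral form whose values `(v, v)` are `0` or `1` modulo `3`. Such a
form is the square of a linear form modulo `3`. In all cases the discriminant is divisible by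
`p ^ (ρ - 1)`.
-/

set_option autoImplicit false

namespace Pool.Agent.Results.MP_ffd2c1_ag.DiscriminantCriterion

open Pool.Agent.Y95.Q Pool.Agent.R907.Cub Module

/-- **The discriminant criterion.** -/
theorem result {X : CubicFourfold} {H : H4 X} (hH : H.IsCohomology) {r : ℕ}
    (b : Basis (Fin r) ℤ H.hodge) (hr : 3 ≤ r)
    (h : ∀ p : ℕ, p.Prime → p % 3 ≠ 1 → ¬ (p : ℤ) ^ (r - 1) ∣ hodgeDet H b) :
    InfinitelyManyK3 H :=
  infinitely_many_of_det b hH hr h

end Pool.Agent.Results.MP_ffd2c1_ag.DiscriminantCriterion
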