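import Mathlib
import Pool.Agent.R845.Eck.Main

/-!
# The very general cubic fourfold with an Eckardt point has no families of odd degree over lines

A cubic fourfold `X` has an Eckardt point `p` if the tangent hyperplane in `p` meets `X` in a cone with
vertex `p`; in suitable coordinates `p = (1 : 0 : … : 0)`, and
`X = (x_0 ^ 2 x_1 + f(x_1, …, x_5) = 0)` for a cubic form `f`. These fourfolds form a family of
dimension 14 (one of the families of cubic fourfolds with an involution). The very general one
contains exactly 27 planes (the cones over the lines of the cubic surface `x_1 = f = 0`) and has no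
associated K3 surface, so it is expected to be irrational.

It is proved that for very general `f` there is no family of rational curves on `X` (parametrized by
a field `L`, with `M = L(t)`, of arbitrary degree) such that `M` has ODD degree over the function
field of `X` and such that the projection from some linear subspace `W` of `X` (empty, a point, a
line or one of the 27 planes) maps the curves to lines or points.

Idea of the proof. By the theorem for all smooth cubic fourfolds (the hand-in `LineRuledClassification`
for MP_6fa476_ag) the subspace `W` lies in a plane of `X`. A count of transcendence degrees shows that all planes of `X`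
are cones over lines of the cubic surface. In coordinates in which the plane is
`y_0 = y_1 = y_2 = 0`, with coordinates `u_0, u_1, u_2` in the plane, the equation of `X` is
`y_0 u_0 ^ 2 + g(u_1, u_2, y_0, y_1, y_2)`, and the coefficients of `g` (which vanishes on `y = 0`) are
again algebraically independent. The theorem for all smooth cubic fourfolds gives a rational section
of the quadric surface bundle given by the plane, and one specializes it to the cubic form
`y_0 u_0 ^ 2 + y_1 u_1 ^ 2 + y_2 u_2 ^ 2 + y_0 y_1 y_2`. But the quadratic form `⟨1, y, z, y z⟩` is
anisotropic over the field of rational functions in `y` and `z`.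
-/

set_option autoImplicit false

namespace Pool.Agent.Results.MP_ffd2c1_ag.EckardtFourfolds

open MvPolynomial

/-- the equation `x_0 ^ 2 x_1 + f(x_1, …, x_5)` of a cubic fourfold with the Eckardt point
`(1 : 0 : … : 0)`; the variables of `f` are `x_1, …, x_5` -/
noncomputable def equation (f : MvPolynomial (Fin 5) ℂ) : MvPolynomial (Fin 6) ℂ :=
  X 0 ^ 2 * X 1 + rename Fin.succ f

/-- the hypersurface `F = 0` is smooth: the partial derivatives have no common zero besides the
origin -/
def Smooth (F : MvPolynomial (Fin 6) ℂ) : Prop :=
  ∀ z : Fin 6 → ℂ, (∀ i, eval z (pderiv i F) = 0) → z = 0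

/-- the exponents of the cubic monomials in five variables -/
abbrev Exponents : Type := {α : Fin 5 →₀ ℕ // α.degree = 3}

/-- the coefficients of a cubic form -/
noncomputable def coefficients (f : MvPolynomial (Fin 5) ℂ) : Exponents → ℂ :=
  fun α => coeff α.1 f

/-- `x` is a generic point of the hypersurface `F = 0` with coordinates in an extension field `M` of
the complex numbers: `F` vanishes at `x`, and every form vanishing at `x` is divisible by `F` -/
def GenericPoint {M : Type} [Field M] [Algebra ℂ M] (F : MvPolynomial (Fin 6) ℂ)
    (x : Fin 6 → M) : Prop :=
  aeval x F = 0 ∧ ∀ (e : ℕ) (H : MvPolynomial (Fin 6) ℂ), H.IsHomogeneous e →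
    aeval x H = 0 → F ∣ H

/-- the field generated by the ratios of the coordinates of `x`; for a generic point of `X` it is
the function field of `X` -/
noncomputable def functionField {M : Type} [Field M] [Algebra ℂ M] (x : Fin 6 → M) :
    IntermediateField ℂ M :=
  IntermediateField.adjoin ℂ {z | ∃ i j, z = x i / x j}

/-- the linear span of the vectors `A 0, …, A (r - 1)` is contained in the hypersurface `F = 0` -/
def SpanInside {r : ℕ} (F : MvPolynomial (Fin 6) ℂ) (A : Fin r → Fin 6 → ℂ) : Prop :=
  ∀ a : Fin r → ℂ, eval (fun i => ∑ l, a l * A l i) F = 0

/-- There is a countable set of nonzero polynomials in the coefficients of the cubic forms `f` in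
five variables such that the following holds for every smooth cubic fourfold
`X = (x_0 ^ 2 x_1 + f = 0)` for which none of these polynomials vanishes at the coefficients of `f`.
Let `W` be a linear subspace of `X` spanned by `A 0, …, A (r-1)` (`r = 0` is allowed), `M = L(t)` with
`t` transcendental over `L`, and `x` a generic point of `X` over `M` such that `M` has odd degree over
the function field of `X`. Then the image of `x` under the projection from `W` is not a point
`t β + γ` of a line over `L` (`β = 0` is included; then it would be a point over `L`), that is, it is
not true that `x = s (t β + γ) + ∑ w_l A_l` with `s`, `w_l` in `M` and `β`, `γ` over `L`. -/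
theorem result : ∃ Ps : Set (MvPolynomial Exponents ℂ), Ps.Countable ∧ 0 ∉ Ps ∧
    ∀ f : MvPolynomial (Fin 5) ℂ, f.IsHomogeneous 3 → Smooth (equation f) →
      (∀ P ∈ Ps, eval (coefficients f) P ≠ 0) →
      ∀ (r : ℕ) (A : Fin r → Fin 6 → ℂ), SpanInside (equation f) A →
      ∀ (M : Type) [Field M] [Algebra ℂ M] (x : Fin 6 → M), GenericPoint (equation f) x →
        Odd (Module.finrank (functionField x) M) →
      ∀ (L : IntermediateField ℂ M) (t : M), Transcendental L t →
        IntermediateField.adjoin L {t} = ⊤ →
      ∀ (s : M) (w : Fin r → M) (β γ : Fin 6 → L),
        ¬ ∀ i, x i = s * (t * (β i : M) + (γ i : M)) + ∑ l, w l * algebraMap ℂ M (A l i) := by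
  classical
  have hfin : Finite Exponents := by
    have h1 : {m : Fin 5 →₀ ℕ | m.degree = 3}.Finite := by
      refine (Finsupp.finite_of_degree_le 3).subset ?_
      intro m hm
      exact le_of_eq hm
    exact h1
  have hc : Countable (MvPolynomial Exponents ℚ) := by
    have := Finite.to_countable (α := Exponents)
    rw [← Cardinal.mk_le_aleph0_iff]
    refine MvPolynomial.cardinalMk_le_max.trans ?_
    rw [max_le_iff, max_le_iff]
    exact ⟨⟨Cardinal.mk_le_aleph0, Cardinal.mk_le_aleph0⟩, le_rfl⟩
  refine ⟨(fun P => map (algebraMap ℚ ℂ) P) '' {P | P ≠ 0}, (Set.to_countable _).image _, ?_, ?_⟩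
  · rintro ⟨P, hP, h0⟩
    apply hP
    exact (map_injective _ (algebraMap ℚ ℂ).injective) (h0.trans (map_zero _).symm)
  · intro f hf hsm hPs r A hA M _ _ x hx hodd L t ht hM s w β γ h
    have hind : AlgebraicIndependent ℚ (coefficients f) := by
      rw [algebraicIndependent_iff]
      intro P hP
      by_contra hP0
      apply hPs _ ⟨P, hP0, rfl⟩
      rw [eval_map, ← aeval_def]
      exact hP
    exact Pool.Agent.R845.Eck.mainE hf hind hsm A hA L t ht hM x hx hodd s w
      (fun i => (β i : M)) (fun i => (γ i : M)) (fun i => (β i).2) (fun i => (γ i).2) h

end Pool.Agent.Results.MP_ffd2c1_ag.EckardtFourfolds
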