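import Mathlib
import Pool.Agent.R845.CL.Stm

/-!
# Hassett's conjecture for parametrizations ruled by curves which project to lines

Let `X` be a smooth cubic fourfold and `W` a linear subspace of `X` (empty, a point, a line, or a
plane). We consider families of rational curves on `X` whose images under the projection from `W`
are lines or points: for `W` empty lines, for a point `W` conics through `W` or nodal plane cubics
with the node `W`, for a line `W` conics which meet `W`, twisted cubics which meet `W` twice, ...,
for a plane `W` all the multisections of the restriction of the quadric surface bundle to lines, and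
also all the curves in its fibres.

If `X` has a rational parametrization, or a unirational parametrization of odd degree, by such a
family, then `X` has an associated K3 surface: `X` lies in Hassett's divisor `𝒞_d` for some
admissible `d`. This is one implication of the conjecture, for all parametrizations of this kind.
More precisely, `X` has such a parametrization for `W` if and only if `W` is a plane `P` and
`T.(h - P)` is odd for some Hodge class `T`.

The parametrizations are treated without any hypothesis by the classification in project CL (which
also gives the theorem `LineRuledClassification` of problem MP_6fa476_ag); the known facts which are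
used for the translation into Hodge classes are collected in `H4.IsCohomology` (starting files: the
lattice `H^4(X, ℤ)`, the classes of the planes) and `SectionCriterion` (Hassett: the quadric surface
bundle of the plane `P` has a rational section if and only if `T.(h - P)` is odd for some `T`).
The conclusion `HasK3` is Hassett's criterion for the existence of a polarised K3 surface
`(S, H)` with a primitive isometric embedding of `H^2(S, ℤ)_pr` in `H^4(X, ℤ)_pr`.
-/

set_option autoImplicit false

namespace Pool.Agent.Results.MP_ffd2c1_ag.LineRuledParametrizations

open Pool.Agent.Y95.Q Pool.Agent.R845.CL.Stm

/-- Let `X` be a smooth cubic fourfold.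

(1) For each linear subspace `W` of `X`, spanned by vectors `A 0, …, A (r-1)`: there is a family of
odd degree over lines with respect to the projection from `W` if and only if there is a birational
parametrization of `X` of this kind, if and only if `W` is a plane `P` and `T.(h - P)` is odd for
some Hodge class `T`.

(2) If `X` has such a family for some `W`, then `X` has an associated K3 surface. -/
theorem result {X : CubicFourfold} {H : H4 X} (hH : H.IsCohomology) (hS : SectionCriterion H) :
    (∀ (r : ℕ) (A : Fin r → Fin 6 → ℂ), SpanInside X.F A →
      List.TFAE [OddFamilyOverLines X.F A, BirationalFamilyOverLines X.F A,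
        ∃ P : X.Plane, P.1 = Submodule.span ℂ (Set.range A) ∧
          ∃ T, H.IsHodge T ∧ Odd (H.ip T (H.h - H.cl P))]) ∧
    ((∃ (r : ℕ) (A : Fin r → Fin 6 → ℂ), SpanInside X.F A ∧ OddFamilyOverLines X.F A) →
      H.HasK3) := by
  refine ⟨fun r A hA => ?_, fun h => ?_⟩
  · have hc := classify X.F X.cubic (sm X) r A hA
    tfae_have 1 ↔ 2 := hc.out 0 1
    tfae_have 1 → 3 := by
      intro h
      obtain ⟨h3, hs⟩ := (hc.out 0 2).1 h
      obtain ⟨P, hP⟩ := exists_plane hA h3
      exact ⟨P, hP, (hS P r A hP.symm).1 hs⟩
    tfae_have 3 → 1 := by
      rintro ⟨P, hP, hT⟩
      have h3 : Module.finrank ℂ (Submodule.span ℂ (Set.range A)) = 3 := by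
        rw [← hP]
        exact P.2.1
      have h20 := hc.out 2 0
      exact h20.1 ⟨h3, (hS P r A hP.symm).2 hT⟩
    tfae_finish
  · obtain ⟨P, T, hT, ho⟩ := ((main hS).out 0 2).1 h
    exact hH.hasK3 (Pool.Agent.R915.Q.isPl_cl hH P) hT ho

end Pool.Agent.Results.MP_ffd2c1_ag.LineRuledParametrizations
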