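import Pool.Agent.R915.Q2

/-!
# Hassett's conjecture for cubic fourfolds containing a plane: a dichotomy

Let `X` be a smooth cubic fourfold which contains a plane `P`, let `A(X)` be the group of the Hodge
classes in `H^4(X, ℤ)`, and for `v` in `A(X)` let `disc v = 3 v.v - (h.v)^2` be the discriminant
of `⟨h, v⟩` and `D(v)` the discriminant of `⟨h, P, v⟩`. It is proved:

1. if `4 ∤ disc v` and `D(v) < 128` for some `v` in `A(X)`, then `X` is rational and has an associated
   K3 surface. This holds whenever `disc v` is one of `14`, `18`, `26`, `30`, `38`, `42`; so all cubic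
   fourfolds in `𝒞_8 ∩ 𝒞_18` and in `𝒞_8 ∩ 𝒞_30` are rational and have associated K3 surfaces,
   although `8`, `18` and `30` are not admissible, and the quadric surface bundle of `P` need not
   have a rational section;
2. either `X` is rational and has an associated K3 surface, or the discriminants of ALL classes in the
   subgroup of `A(X)` generated by `h` and the classes `w` with `D(w) ≤ 64` are divisible by four;
3. so if `A(X)` is generated by `h` and classes `w` with `D(w) ≤ 64` (for example, by classes of
   discriminant at most `24`), and `X` has an associated K3 surface, then `X` is rational.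

The known facts which are used are collected in `H4.IsCohomology` (starting files): the
lattice `H^4(X, ℤ)` is unimodular and odd with characteristic vector `h`, `h.h = 3`; the Hodge classes
are positive definite; Voisin's theorem that the classes of the planes are the Hodge classes `v` with
`v.h = 1`, `v.v = 3`; the discriminants `2` and `6` do not occur (Voisin, Hassett); and Hassett's
theorem that `X` is rational if `T.(h - P)` is odd for some plane `P` and Hodge class `T`; and in
`KnownRational`: the cubic fourfolds in `𝒞_14` (Beauville-Donagi, Bolognesi-Russo-Staglianò), `𝒞_26`,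
`𝒞_38` and `𝒞_42` (Russo-Staglianò) are rational. The conclusion `HasK3` is Hassett's criterion
for the existence of a polarised K3 surface `(S, H)` with a primitive isometric embedding of
`H^2(S, ℤ)_pr` in `H^4(X, ℤ)_pr`.

Idea: let `b(v, w) = 3 v.w - (h.v)(h.w)`. If `b(P, T)` is odd for some `T`, this is Hassett's
theorem. Otherwise one reduces `v` modulo `P` such that `|b(P, v)| ≤ 4`; then `disc v < 50`, and
`disc v ≡ 2 mod 4` gives `disc v = 14, 18, 26, 30, 38, 42`; and if it is `18` or `30` then `b(P, v) = 0`
(it is divisible by `2` and `3`) and `disc (v + P) = 26` or `38`. For the dichotomy one proves that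
`b(w, w')` is even for the generators, since otherwise `w - w'` or `w + w'` would be a class as in 1.
The K3 surface exists by an explicit solution: if `8 x^2 + 2 b x + c` is the discriminant of
`x P + v`, and `b` is odd or `c ≡ 2 mod 4`, then it is equal to `2 n^2 + 2 n + 2` for some `x`, `n`.
-/

set_option autoImplicit false

namespace Pool.Agent.Results.MP_ffd2c1_ag.PlaneDichotomy

open Pool.Agent.Y95.Q Pool.Agent.R915.Q

/-- **The dichotomy for cubic fourfolds containing a plane.** Here `disc3 H (H.cl P) v` is the
discriminant of `⟨h, P, v⟩`, and `Small H P` consists of `h` and the Hodge classes `w` such that the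
discriminant of `⟨h, P, w⟩` is at most `64`. -/
theorem result {X : CubicFourfold} {H : H4 X} (hH : H.IsCohomology) (hR : KnownRational H)
    (P : X.Plane) :
    (∀ v, H.IsHodge v → ¬ 4 ∣ H.disc v → disc3 H (H.cl P) v < 128 →
      X.IsRational ∧ H.HasK3) ∧
    ((X.IsRational ∧ H.HasK3) ∨
      ∀ v ∈ AddSubgroup.closure (Small H P), 4 ∣ H.disc v) ∧
    ((∀ v, H.IsHodge v → v ∈ AddSubgroup.closure (Small H P)) →
      H.HasK3 → X.IsRational) := by
  have h2 : (X.IsRational ∧ H.HasK3) ∨
      ∀ v ∈ AddSubgroup.closure (Small H P), 4 ∣ H.disc v := by
    by_cases h : X.IsRational ∧ HasHilbertSquare H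
    · exact Or.inl ⟨h.1, hasK3_of_hasHilbertSquare hH h.2⟩
    · exact Or.inr fun v hv => dichotomy hH hR P h v hv
  refine ⟨fun v hv h4 hD => ?_, h2, fun hgen hK => ?_⟩
  · have h := rational_of_small hH hR P hv h4 (by
      have t := three_disc3 hH (H.cl P) v
      rw [disc_plane hH] at t
      linarith)
    exact ⟨h.1, hasK3_of_hasHilbertSquare hH h.2⟩
  · rcases h2 with h | h
    · exact h.1
    · obtain ⟨v, hv, _, _, h4, _⟩ := hK
      exact absurd (h v (hgen v hv)) h4

end Pool.Agent.Results.MP_ffd2c1_ag.PlaneDichotomy
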